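import Pool.Agent.TH90.Cub.Util

set_option autoImplicit false

open CategoryTheory AlgebraicGeometry Pool.Agent.TH90.Cub

namespace Pool.Agent.Results.MP_e93a6a_ag.GateComplements

/-- The formal properties used of the groups `H n i X = H^i(X_et, ℤ^c(n))`, for weights `n ≤ 0` and
arithmetic schemes `X` (separated, of finite type over `ℤ`): they only depend on `X` up to
isomorphism, vanish for the empty scheme, satisfy the localisation sequences
`H^{i-1}(X \ Z) → H^i(Z) → H^i(X) → H^i(X \ Z)` for closed `Z ⊆ X`, and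
`H^i(𝔸¹_X, ℤ^c(n)) ≅ H^{i+2}(X, ℤ^c(n - 1))` for the affine line. -/
structure CycleCohomology where
  /-- `H^i(X_et, ℤ^c(n))` -/
  H : ℤ → ℤ → Scheme.{0} → Type
  grp : ∀ n i X, AddCommGroup (H n i X)
  iso : ∀ (n : ℤ), n ≤ 0 → ∀ (i : ℤ) {X Y : Scheme.{0}} (_ : X ≅ Y)
    (g : Y ⟶ Spec (CommRingCat.of ℤ)), FT True ℤ g → Nonempty (H n i X ≃+ H n i Y)
  empty : ∀ (n i : ℤ) (X : Scheme.{0}), n ≤ 0 → IsEmpty X → Subsingleton (H n i X)
  localization : ∀ {Z X U : Scheme.{0}} (f : X ⟶ Spec (CommRingCat.of ℤ)) (i : Z ⟶ X)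
    (j : U ⟶ X), FT True ℤ f → IsClosedImmersion i → IsOpenImmersion j →
    Set.range i = (Set.range j)ᶜ → ∀ (n m : ℤ), n ≤ 0 →
    ∃ (bd : H n (m - 1) U →+ H n m Z) (push : H n m Z →+ H n m X) (res : H n m X →+ H n m U),
      Function.Exact bd push ∧ Function.Exact push res
  line : ∀ (n i : ℤ), n ≤ 0 → ∀ (X : Scheme.{0}) (f : X ⟶ Spec (CommRingCat.of ℤ)),
    FT True ℤ f → Nonempty (H n i (𝔸(Fin 1; X)) ≃+ H (n - 1) (i + 2) X)

attribute [instance] CycleCohomology.grp

/-- The complement in affine space over `ℤ` of the hypersurface `h = 0`. -/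
noncomputable abbrev Complement {N : ℕ} (h : MvPolynomial (Fin N) ℤ) : Scheme.{0} :=
  Spec (CommRingCat.of (Localization.Away h))

theorem fixed (T : CycleCohomology) (n : ℤ) (hn : n ≤ 0)
    (h : ∀ (N : ℕ) (h : MvPolynomial (Fin N) ℤ), h ∈ Submonoid.closure {g | IsGate {1} g} →
      ∀ i : ℤ, AddGroup.FG (T.H n i (Complement h)))
    (X : Scheme.{0}) (f : X ⟶ Spec (CommRingCat.of ℤ)) (hf : FT True ℤ f) (i : ℤ) :
    AddGroup.FG (T.H n i X) := by
  let P : ∀ X : Scheme.{0}, (X ⟶ Spec (CommRingCat.of ℤ)) → Prop :=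
    fun X _ => ∀ i : ℤ, AddGroup.FG (T.H n i X)
  have hP : IsDevissage True ℤ P :=
    { iso := by
        intro X Y e g hg hX m
        obtain ⟨E⟩ := T.iso n hn m e g hg
        exact fg_iso E (hX m)
      empty := by
        intro X f hX m
        exact fg_subsingleton (T.empty n m X hn hX)
      closed := by
        intro Z X U f i j hf hi hj hr hX hU m
        obtain ⟨bd, push, res, h1, h2⟩ := T.localization f i j hf hi hj hr n m hn
        exact fg_mid bd push h1 (hU (m - 1)) (hX m)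
      total := by
        intro Z X U f i j hf hi hj hr hZ hU m
        obtain ⟨bd, push, res, h1, h2⟩ := T.localization f i j hf hi hj hr n m hn
        exact fg_mid push res h2 (hZ m) (hU m) }
  exact all_of_gates closure_one_int (Set.mem_singleton 1) hP (fun N h' hh' => h N h' hh') f hf i

theorem descend (T : CycleCohomology)
    (h : ∀ (X : Scheme.{0}) (f : X ⟶ Spec (CommRingCat.of ℤ)), FT True ℤ f → ∀ i : ℤ,
      AddGroup.FG (T.H (-1) i X)) (k : ℕ) :
    ∀ (X : Scheme.{0}) (f : X ⟶ Spec (CommRingCat.of ℤ)), FT True ℤ f → ∀ i : ℤ,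
      AddGroup.FG (T.H (-1 - (k : ℤ)) i X) := by
  induction k with
  | zero => simpa using h
  | succ k ih =>
    intro X f hf i
    have h1 : FT True ℤ ((𝔸(Fin 1; X) ↘ X) ≫ f) := by
      have := hf.lft
      have := hf.qc
      have := hf.sp trivial
      exact ⟨inferInstance, inferInstance, fun _ => inferInstance⟩
    obtain ⟨E⟩ := T.line (-1 - (k : ℤ)) (i - 2) (by omega) X f hf
    have h2 := fg_iso E (ih _ _ h1 (i - 2))
    have e1 : (-1 - (k : ℤ) - 1) = -1 - ((k + 1 : ℕ) : ℤ) := by push_cast; ring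
    have e2 : i - 2 + 2 = i := by ring
    rw [e1, e2] at h2
    exact h2

/-- Let `H^i(X_et, ℤ^c(n))` have the formal properties above. For every weight `n ≤ 0`, these
groups are finitely generated for all arithmetic schemes `X` and all `i` if (and only if) they are
so for the complements in affine spaces `𝔸^N_ℤ` of the unions of finitely many of the hypersurfaces
`x_a x_b = x_c`, `x_a + x_b = x_c`, `x_a = 1`; and they are finitely generated for all `n < 0`, `X`
and `i` (this is the question) if and only if they are so for `n = -1` and these complements. -/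
theorem result (T : CycleCohomology) :
    (∀ n ≤ 0,
      (∀ (X : Scheme.{0}) (f : X ⟶ Spec (CommRingCat.of ℤ)), FT True ℤ f → ∀ i : ℤ,
        AddGroup.FG (T.H n i X)) ↔
      (∀ (N : ℕ) (h : MvPolynomial (Fin N) ℤ), h ∈ Submonoid.closure {g | IsGate {1} g} →
        ∀ i : ℤ, AddGroup.FG (T.H n i (Complement h)))) ∧
    ((∀ (X : Scheme.{0}) (f : X ⟶ Spec (CommRingCat.of ℤ)), FT True ℤ f → ∀ n < 0, ∀ i : ℤ,
        AddGroup.FG (T.H n i X)) ↔
      (∀ (N : ℕ) (h : MvPolynomial (Fin N) ℤ), h ∈ Submonoid.closure {g | IsGate {1} g} →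
        ∀ i : ℤ, AddGroup.FG (T.H (-1) i (Complement h)))) := by
  refine ⟨fun n hn => ⟨fun h N h' _ i => h _ (str ℤ _) (ft_gate h') i,
    fun h X f hf i => fixed T n hn h X f hf i⟩, ⟨fun h N h' _ i => ?_, fun h X f hf n hn i => ?_⟩⟩
  · exact h _ (str ℤ _) (ft_gate h') (-1) (by norm_num) i
  · have h1 := descend T (fun X f hf i => fixed T (-1) (by norm_num) h X f hf i)
      (-n - 1).toNat X f hf i
    have e1 : -1 - (((-n - 1).toNat : ℕ) : ℤ) = n := by
      rw [Int.toNat_of_nonneg (by omega)]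
      ring
    rw [e1] at h1
    exact h1

end Pool.Agent.Results.MP_e93a6a_ag.GateComplements
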